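import Pool.Agent.N321.KT.Defs

/-!
Project KT (helper321), part MONO (helper919): from order `m` to order `m + 1`.
-/

set_option autoImplicit false

namespace Pool.Agent.N919.KT

open Pool.Agent.N321.KT

variable {ι : Type}

theorem zero_mul' {R : Type} [CommRing R] (g u : Jet ι R) (hg : ∀ w, g w = 0) (w : List ι) :
    mul g u w = 0 := by
  induction w generalizing g u with
  | nil => simp [mul, hg]
  | cons i w ih =>
    simp only [mul]
    rw [ih (D i g) u (fun w' => hg _), ih g (D i u) hg, add_zero]

theorem const_mul' {R : Type} [CommRing R] (g u : Jet ι R) (hg : ∀ x w, g (x :: w) = 0)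
    (w : List ι) : mul g u w = g [] * u w := by
  induction w generalizing u with
  | nil => simp [mul]
  | cons i w ih =>
    simp only [mul]
    rw [zero_mul' (D i g) u (fun w' => hg i w'), ih (D i u), zero_add]
    rfl

theorem mul_congr' {R : Type} [CommRing R] (g a b : Jet ι R) (w : List ι)
    (h : ∀ w' : List ι, w'.length ≤ w.length → a w' = b w') : mul g a w = mul g b w := by
  induction w generalizing g a b with
  | nil => simp only [mul]; rw [h [] le_rfl]
  | cons i w ih =>
    simp only [mul]
    rw [ih (D i g) a b (fun w' hw' => h w' (by simp only [List.length_cons]; omega)),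
      ih g (D i a) (D i b) (fun w' hw' => h (i :: w') (by simp only [List.length_cons]; omega))]

section
variable [Fintype ι] [DecidableEq ι] (d : ι → ℝ) (l : ι → ι → ι → ℝ)

theorem mulK_cons (s t x : ι) (u : Jet ι ℝ) (w : List ι) :
    mul (Kjet d l s t) u (x :: w) = l s t x * u w + mul (Kjet d l s t) (D x u) w := by
  simp only [mul]
  rw [const_mul' (D x (Kjet d l s t)) u (fun y w' => rfl) w]
  rfl

theorem mulK_nil (s t : ι) (u : Jet ι ℝ) :
    mul (Kjet d l s t) u [] = (if s = t then d s else 0) * u [] := rfl

theorem mulK_rep (s t k : ι) (n : ℕ) (u : Jet ι ℝ) (h : ∀ q, q < n → u (List.replicate q k) = 0) :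
    mul (Kjet d l s t) u (List.replicate n k) =
      (if s = t then d s else 0) * u (List.replicate n k) := by
  induction n generalizing u with
  | zero => exact mulK_nil d l s t u
  | succ n ih =>
    rw [List.replicate_succ, mulK_cons, h n (by omega), mul_zero, zero_add,
      ih (D k u) (fun q hq => ?_)]
    · rfl
    · have := h (q + 1) (by omega)
      rwa [List.replicate_succ] at this

/-- the row of order `m - 1` -/
theorem row (n : ℕ) (v : Jet ι ℝ) (i j k : ι) (hik : i ≠ k) (hjk : j ≠ k) (hij : i ≠ j)
    (hv : ∀ w : List ι, w.length ≤ n + 3 → (∃ x ∈ w, ∃ y ∈ w, x ≠ y) → v w = 0) :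
    om (Kjet d l) v i k (j :: List.replicate (n + 1) k) =
      d k * v (k :: i :: j :: List.replicate (n + 1) k) -
        (l k i j * v (List.replicate (n + 3) k) + d i * v (i :: k :: j :: List.replicate (n + 1) k)) := by
  have hA : th (Kjet d l) v k (i :: j :: List.replicate (n + 1) k) =
      d k * v (k :: i :: j :: List.replicate (n + 1) k) := by
    unfold th
    have h1 : ∀ s, mul (Kjet d l s k) (D s v) (i :: j :: List.replicate (n + 1) k) =
        (if s = k then d s else 0) * v (s :: i :: j :: List.replicate (n + 1) k) := by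
      intro s
      rw [mulK_cons, mulK_cons, mulK_rep]
      · have e1 : D s v (j :: List.replicate (n + 1) k) = 0 := by
          refine hv _ (by simp) ⟨j, by simp, k, by simp, hjk⟩
        have e2 : D i (D s v) (List.replicate (n + 1) k) = 0 := by
          refine hv (s :: i :: _) (by simp) ⟨i, by simp, k, by simp, hik⟩
        rw [e1, e2, mul_zero, mul_zero, zero_add, zero_add]
        rfl
      · intro q hq
        refine hv (s :: i :: j :: _) (by simp; omega) ⟨i, by simp, j, by simp, hij⟩
    rw [Finset.sum_congr rfl fun s _ => h1 s, Finset.sum_eq_single k]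
    · simp
    · intro s _ hs
      simp [hs]
    · intro h
      exact absurd (Finset.mem_univ k) h
  have hB : th (Kjet d l) v i (k :: j :: List.replicate (n + 1) k) =
      l k i j * v (List.replicate (n + 3) k) + d i * v (i :: k :: j :: List.replicate (n + 1) k) := by
    unfold th
    have h1 : ∀ s, mul (Kjet d l s i) (D s v) (k :: j :: List.replicate (n + 1) k) =
        (if s = k then l s i j * v (List.replicate (n + 3) k) else 0) +
          (if s = i then d s * v (s :: k :: j :: List.replicate (n + 1) k) else 0) := by
      intro s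
      rw [mulK_cons, mulK_cons, mulK_rep]
      · have e1 : D s v (j :: List.replicate (n + 1) k) = 0 := by
          refine hv _ (by simp) ⟨j, by simp, k, by simp, hjk⟩
        rw [e1, mul_zero, zero_add]
        congr 1
        · by_cases hs : s = k
          · rw [if_pos hs, hs]
            rfl
          · rw [if_neg hs]
            have e2 : D k (D s v) (List.replicate (n + 1) k) = 0 := by
              refine hv (s :: k :: _) (by simp) ⟨s, by simp, k, by simp, hs⟩
            rw [e2, mul_zero]
        · by_cases hs : s = i
          · rw [if_pos hs, if_pos hs]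
            rfl
          · rw [if_neg hs, if_neg hs, zero_mul]
      · intro q hq
        refine hv (s :: k :: j :: _) (by simp; omega) ⟨k, by simp, j, by simp, hjk.symm⟩
    rw [Finset.sum_congr rfl fun s _ => h1 s, Finset.sum_add_distrib]
    simp
  unfold om
  rw [hA, hB]

/-- truncation -/
theorem trunc {m : ℕ} {v : Jet ι ℝ} (hv : v ∈ Ker (m + 1) (Kjet d l)) :
    (fun w : List ι => if w.length ≤ m then v w else 0) ∈ Ker m (Kjet d l) := by
  obtain ⟨h1, h2, h3⟩ := hv
  refine ⟨fun w w' h => ?_, fun w hw => ?_, fun w hw i j => ?_⟩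
  · simp only [h.length_eq, h1 w w' h]
  · simp only at hw
    by_cases hm : w.length ≤ m
    · rw [if_pos hm] at hw
      exact ⟨(h2 w hw).1, hm⟩
    · rw [if_neg hm] at hw
      exact absurd rfl hw
  · have h4 := h3 w (by omega) i j
    refine Eq.trans ?_ h4
    have key : ∀ (i j : ι), th (Kjet d l) (fun w : List ι => if w.length ≤ m then v w else 0) j (i :: w) =
        th (Kjet d l) v j (i :: w) := by
      intro i j
      unfold th
      refine Finset.sum_congr rfl fun s _ => mul_congr' _ _ _ _ fun w' hw' => ?_
      simp only [List.length_cons] at hw'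
      have : (s :: w').length ≤ m := by simp only [List.length_cons]; omega
      simp only [D, this, if_true]
    unfold om
    rw [key, key]

/-- the order two is never pure -/
theorem two (hd : Function.Injective d) (k : ι) (hP : Pure 2 (Kjet d l)) : False := by
  obtain ⟨v, hv⟩ : ∃ v : Jet ι ℝ, v = fun w => match w with
    | [] => 0
    | [x] => if x = k then 1 else 0
    | [x, y] => if x = y then 0 else (l k y x - l k x y) / (d x - d y)
    | _ :: _ :: _ :: _ => 0 := ⟨_, rfl⟩
  have v0 : v [] = 0 := by rw [hv]
  have v1 : ∀ x, v [x] = if x = k then 1 else 0 := by intro x; rw [hv]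
  have v2 : ∀ x y, v [x, y] = if x = y then 0 else (l k y x - l k x y) / (d x - d y) := by
    intro x y; rw [hv]
  have v3 : ∀ x y z w, v (x :: y :: z :: w) = 0 := by intro x y z w; rw [hv]
  have hsw : ∀ x y, v [x, y] = v [y, x] := by
    intro x y
    rw [v2, v2]
    by_cases h : x = y
    · rw [if_pos h, if_pos h.symm]
    · rw [if_neg h, if_neg (fun h' => h h'.symm)]
      have : d x - d y ≠ 0 := fun h' => h (hd (by linarith))
      have : d y - d x ≠ 0 := fun h' => h (hd (by linarith))
      field_simp
      ring
  have hsym : Sym v := by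
    intro w w' h
    induction h with
    | nil => rfl
    | @cons x w1 w2 h _ =>
      rcases w1 with _ | ⟨y, _ | ⟨z, w1⟩⟩
      · rw [h.nil_eq]
      · rw [List.singleton_perm.1 h]
      · have hl := h.length_eq
        rcases w2 with _ | ⟨y2, _ | ⟨z2, w2⟩⟩
        · simp at hl
        · simp at hl
        · rw [v3, v3]
    | swap x y w1 =>
      rcases w1 with _ | ⟨z, w1⟩
      · exact hsw y x
      · rw [v3, v3]
    | trans _ _ h1 h2 => exact h1.trans h2
  have hmem : v ∈ Ker 2 (Kjet d l) := by
    refine ⟨hsym, fun w hw => ?_, fun w hw i j => ?_⟩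
    · rcases w with _ | ⟨x, _ | ⟨y, _ | ⟨z, w⟩⟩⟩
      · exact absurd v0 hw
      · simp
      · simp
      · exact absurd (v3 x y z w) hw
    · have hw0 : w = [] := by
        rcases w with _ | ⟨x, w⟩
        · rfl
        · simp at hw
      rw [hw0]
      have hth : ∀ i j, th (Kjet d l) v j [i] = l k j i + d j * v [j, i] := by
        intro i j
        unfold th
        have h1 : ∀ s, mul (Kjet d l s j) (D s v) [i] =
            (if s = k then l s j i else 0) + (if s = j then d s * v [s, i] else 0) := by
          intro s
          rw [mulK_cons, mulK_nil]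
          have e1 : D s v [] = if s = k then 1 else 0 := v1 s
          have e2 : D i (D s v) [] = v [s, i] := rfl
          rw [e1, e2]
          by_cases hs : s = k <;> by_cases hs' : s = j <;> simp [hs, hs']
        rw [Finset.sum_congr rfl fun s _ => h1 s, Finset.sum_add_distrib]
        simp
      unfold om
      rw [hth, hth, v2, v2]
      by_cases h : i = j
      · rw [h]; simp
      · rw [if_neg h, if_neg (fun h' => h h'.symm)]
        have h1 : d i - d j ≠ 0 := fun h' => h (hd (by linarith))
        have h2 : d j - d i ≠ 0 := fun h' => h (hd (by linarith))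
        field_simp
        ring
  have := (hP v hmem [k] (by rw [v1]; simp)).1
  simp at this

end

theorem t (h : S_PUR) : S_MONO := by
  intro ι _ _ m d l hm hd hk hP
  by_cases hm2 : m = 2
  · subst hm2
    refine h ι 3 (Kjet d l) d hd (fun s j => rfl) fun v hv i => ?_
    exact (two d l hd i hP).elim
  obtain ⟨n, rfl⟩ : ∃ n, m = n + 3 := ⟨m - 3, by omega⟩
  refine h ι (n + 3 + 1) (Kjet d l) d hd (fun s j => rfl) fun v hv k q hq1 hq2 => ?_
  have hT := hP _ (trunc d l hv)
  by_cases hq : q < n + 3
  · by_contra hne
    have h1 := (hT (List.replicate q k) (by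
      simp only [List.length_replicate]
      rw [if_pos hq.le]
      exact hne)).1
    rw [List.length_replicate] at h1
    omega
  have hqe : q = n + 3 := by omega
  rw [hqe]
  have hv0 : ∀ w : List ι, w.length ≤ n + 3 → (∃ x ∈ w, ∃ y ∈ w, x ≠ y) → v w = 0 := by
    rintro w hw ⟨x, hx, y, hy, hxy⟩
    by_contra hne
    exact hxy ((hT w (by
      rw [if_pos hw]
      exact hne)).2 x hx y hy)
  obtain ⟨i, j, hik, hjk, hij, hne⟩ := hk k
  obtain ⟨hS, hTr, hR⟩ := hv
  have r1 := row d l n v i j k hik hjk hij hv0
  have r2 := row d l n v j i k hjk hik hij.symm hv0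
  rw [hR _ (by simp) i k] at r1
  rw [hR _ (by simp) j k] at r2
  obtain ⟨z, hz⟩ : ∃ z : ℝ, z = v (k :: i :: j :: List.replicate (n + 1) k) := ⟨_, rfl⟩
  have z1 : v (i :: k :: j :: List.replicate (n + 1) k) = z := by
    rw [hz]; exact hS _ _ (List.Perm.swap _ _ _)
  have z2 : v (k :: j :: i :: List.replicate (n + 1) k) = z := by
    rw [hz]; exact hS _ _ ((List.Perm.swap _ _ _).cons _)
  have z3 : v (j :: k :: i :: List.replicate (n + 1) k) = z := by
    rw [← z2]; exact hS _ _ (List.Perm.swap _ _ _)
  rw [← hz, z1] at r1
  rw [z2, z3] at r2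
  have hz0 : v (List.replicate (n + 3) k) * ((d k - d j) * l k i j - (d k - d i) * l k j i) = 0 := by
    linear_combination (d k - d j) * r1 - (d k - d i) * r2
  rcases mul_eq_zero.1 hz0 with h1 | h1
  · exact h1
  · exact absurd (by linarith) hne

end Pool.Agent.N919.KT
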